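import Pool.Agent.Y142.ZD.Stm

set_option autoImplicit false

open Polynomial Pool.Agent.Y142.ZO Pool.Agent.Y142.ZI Pool.Agent.Y142.ZD

namespace Pool.Agent.Q164.OI.TAME

theorem norm_ell (ℓ : ℕ) [Fact ℓ.Prime] :
    ‖((ℓ : ℕ) : AlgebraicClosure ℚ_[ℓ])‖ = (ℓ : ℝ)⁻¹ := by
  rw [← map_natCast (algebraMap ℚ_[ℓ] (AlgebraicClosure ℚ_[ℓ]))]
  rw [PadicAlgCl.norm_extends, Padic.norm_p]

/-- an `L`-th root of `ℓ` has degree `L` over an unramified field -/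
theorem degree_eq (ℓ : ℕ) [Fact ℓ.Prime] (F : IntermediateField ℚ_[ℓ] (AlgebraicClosure ℚ_[ℓ]))
    (hF : Unr ℓ F) (L : ℕ) (hL : 0 < L) (π : AlgebraicClosure ℚ_[ℓ])
    (hπ : π ^ L = (ℓ : AlgebraicClosure ℚ_[ℓ])) :
    minpoly F π = X ^ L - C (ℓ : F) := by
  have hℓ : (1 : ℝ) < ℓ := by exact_mod_cast (Fact.out : ℓ.Prime).one_lt
  have hℓ0 : (0 : ℝ) < ℓ := by linarith
  have hint : IsIntegral F π := by
    refine ⟨X ^ L - C (ℓ : F), monic_X_pow_sub_C _ hL.ne', ?_⟩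
    rw [← aeval_def]
    simp [hπ]
  have hdvd : minpoly F π ∣ X ^ L - C (ℓ : F) := by
    apply minpoly.dvd
    simp [hπ]
  have hmon := minpoly.monic hint
  have hQmon : (X ^ L - C (ℓ : F)).Monic := monic_X_pow_sub_C _ hL.ne'
  -- norms of the roots
  have hroot : ∀ r : AlgebraicClosure ℚ_[ℓ], r ∈ ((minpoly F π).map
      (algebraMap F (AlgebraicClosure ℚ_[ℓ]))).roots → ‖r‖ ^ L = (ℓ : ℝ)⁻¹ := by
    intro r hr
    have h1 : aeval r (minpoly F π) = 0 := by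
      rw [mem_roots (hmon.map _).ne_zero] at hr
      rw [aeval_def, ← eval_map]
      exact hr
    have h2 : aeval r (X ^ L - C (ℓ : F)) = 0 := by
      obtain ⟨c, hc⟩ := hdvd
      rw [hc, map_mul, h1, zero_mul]
    simp only [map_sub, map_pow, aeval_X, map_natCast, sub_eq_zero] at h2
    rw [← norm_pow, h2, norm_ell]
  have hπn : ‖π‖ ^ L = (ℓ : ℝ)⁻¹ := by rw [← norm_pow, hπ, norm_ell]
  have hπ0 : 0 < ‖π‖ := by
    rcases (norm_nonneg π).lt_or_eq with h | h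
    · exact h
    · exfalso
      rw [← h, zero_pow hL.ne'] at hπn
      exact (inv_pos.2 hℓ0).ne hπn
  have hnr : ∀ r ∈ ((minpoly F π).map (algebraMap F (AlgebraicClosure ℚ_[ℓ]))).roots,
      ‖r‖ = ‖π‖ := by
    intro r hr
    exact (pow_left_inj₀ (norm_nonneg _) (norm_nonneg _) hL.ne').1 ((hroot r hr).trans hπn.symm)
  have hsp : ((minpoly F π).map (algebraMap F (AlgebraicClosure ℚ_[ℓ]))).Splits :=
    IsAlgClosed.splits _
  have hc0 := hsp.coeff_zero_eq_prod_roots_of_monic (hmon.map _)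
  have hcard := hsp.natDegree_eq_card_roots
  have hprod : ∀ s : Multiset (AlgebraicClosure ℚ_[ℓ]), (∀ r ∈ s, ‖r‖ = ‖π‖) →
      ‖s.prod‖ = ‖π‖ ^ Multiset.card s := by
    intro s
    induction s using Multiset.induction_on with
    | empty => simp
    | cons a s ih =>
      intro h
      rw [Multiset.prod_cons, norm_mul, h a (Multiset.mem_cons_self a s),
        ih (fun r hr => h r (Multiset.mem_cons_of_mem hr)), Multiset.card_cons, pow_succ, mul_comm]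
  have hnorm : ‖((minpoly F π).coeff 0 : AlgebraicClosure ℚ_[ℓ])‖ =
      ‖π‖ ^ (minpoly F π).natDegree := by
    have h1 : ((minpoly F π).coeff 0 : AlgebraicClosure ℚ_[ℓ]) =
        ((minpoly F π).map (algebraMap F (AlgebraicClosure ℚ_[ℓ]))).coeff 0 := by
      rw [coeff_map]; rfl
    rw [h1, hc0, norm_mul, norm_pow, norm_neg, norm_one, one_pow, one_mul, hprod _ hnr, ← hcard,
      natDegree_map]
  have hc0ne : ((minpoly F π).coeff 0 : AlgebraicClosure ℚ_[ℓ]) ≠ 0 := by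
    rw [← norm_pos_iff, hnorm]
    exact pow_pos hπ0 _
  obtain ⟨k, hk⟩ := hF _ ((minpoly F π).coeff 0).2 hc0ne
  rw [hnorm] at hk
  -- `d = - k L`
  have hd : ((minpoly F π).natDegree : ℤ) = -(k * L) := by
    have h1 : (‖π‖ ^ (minpoly F π).natDegree) ^ L = ((ℓ : ℝ) ^ k) ^ L := by rw [hk]
    rw [← pow_mul, mul_comm, pow_mul, hπn, ← zpow_natCast ((ℓ : ℝ) ^ k), ← zpow_mul,
      ← zpow_natCast, ← zpow_neg_one, ← zpow_mul] at h1
    have h2 := zpow_right_injective₀ hℓ0 hℓ.ne' h1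
    linarith
  have hdpos : 0 < (minpoly F π).natDegree := minpoly.natDegree_pos hint
  have hdle : (minpoly F π).natDegree ≤ L := by
    have := natDegree_le_of_dvd hdvd hQmon.ne_zero
    rwa [natDegree_X_pow_sub_C] at this
  have hdL : (minpoly F π).natDegree = L := by
    have hdvd2 : (L : ℤ) ∣ ((minpoly F π).natDegree : ℤ) := ⟨-k, by rw [hd]; ring⟩
    exact le_antisymm hdle (Nat.le_of_dvd hdpos (by exact_mod_cast hdvd2))
  exact (eq_of_monic_of_dvd_of_natDegree_le hmon hQmon hdvd (by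
    rw [natDegree_X_pow_sub_C, hdL])).symm

theorem t (hNR : S_NR) : S_TAME := by
  intro ℓ _ L hL hℓL
  obtain ⟨hU, -, h3⟩ := hNR ℓ
  have hℓ : (1 : ℝ) < ℓ := by exact_mod_cast (Fact.out : ℓ.Prime).one_lt
  have hℓ0 : (0 : ℝ) < ℓ := by linarith
  have hℓne : ((ℓ : ℕ) : AlgebraicClosure ℚ_[ℓ]) ≠ 0 := by
    exact_mod_cast (Fact.out : ℓ.Prime).ne_zero
  obtain ⟨π, hπ⟩ := IsAlgClosed.exists_pow_nat_eq (ℓ : AlgebraicClosure ℚ_[ℓ]) hL
  have hπ0 : π ≠ 0 := by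
    rintro rfl
    rw [zero_pow hL.ne'] at hπ
    exact hℓne hπ.symm
  have hmin := degree_eq ℓ (NR ℓ) hU L hL π hπ
  have : NeZero (L : ℚ_[ℓ]) := ⟨by exact_mod_cast hL.ne'⟩
  obtain ⟨ζ, hζ⟩ := HasEnoughRootsOfUnity.exists_primitiveRoot (AlgebraicClosure ℚ_[ℓ]) L
  have hζF : ζ ∈ NR ℓ := by
    apply IntermediateField.subset_adjoin
    exact ⟨L, hL, hℓL, hζ.pow_eq_one⟩
  have hconj : IsConjRoot (NR ℓ) π (ζ * π) := by
    rw [isConjRoot_iff_aeval_eq_zero (by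
      refine ⟨X ^ L - C (ℓ : NR ℓ), monic_X_pow_sub_C _ hL.ne', ?_⟩
      rw [← aeval_def]
      simp [hπ]), hmin]
    simp [mul_pow, hζ.pow_eq_one, hπ]
  obtain ⟨τ, hτ⟩ := isConjRoot_iff_exists_algEquiv.1 hconj.symm
  refine ⟨τ, ?_⟩
  intro e c r s he hc hr hs
  obtain ⟨f, hf⟩ := he
  have he0 : 0 < e := Nat.pos_of_ne_zero (by rintro rfl; omega)
  have hf0 : 0 < f := Nat.pos_of_ne_zero (by rintro rfl; omega)
  have hc0 : c ≠ 0 := by
    rintro rfl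
    rw [norm_zero] at hc
    exact (inv_pos.2 hℓ0).ne hc
  have hr0 : r ≠ 0 := by
    rintro rfl
    rw [zero_pow he0.ne'] at hr
    exact hc0 ((map_eq_zero _).1 hr.symm)
  have hcast : algebraMap ℚ_[ℓ] (AlgebraicClosure ℚ_[ℓ]) (ℓ : ℚ_[ℓ]) =
      (ℓ : AlgebraicClosure ℚ_[ℓ]) := map_natCast _ _
  have hy : (r / π ^ f) ^ e = algebraMap ℚ_[ℓ] (AlgebraicClosure ℚ_[ℓ]) (c / ℓ) := by
    rw [div_pow, ← pow_mul, mul_comm f e, ← hf, hπ, hr, map_div₀, hcast]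
  have hu : ‖c / (ℓ : ℚ_[ℓ])‖ = 1 := by
    rw [norm_div, hc, Padic.norm_p, div_self (inv_pos.2 hℓ0).ne']
  have hyF : r / π ^ f ∈ NR ℓ := h3 e (c / ℓ) _ he0
    (fun h => hℓL (h.trans ⟨f, hf⟩)) hu hy
  have hτfix : ∀ x ∈ NR ℓ, τ x = x := fun x hx => τ.commutes ⟨x, hx⟩
  have hτr : τ r = ζ ^ f * r := by
    have h1 : r = π ^ f * (r / π ^ f) := by field_simp
    conv_lhs => rw [h1]
    rw [map_mul, map_pow, hτ, hτfix _ hyF, mul_pow, mul_assoc, ← h1]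
  have hζ' : IsPrimitiveRoot (ζ ^ f) e := hζ.pow hL (by rw [hf, mul_comm])
  have hτk : ∀ k : ℕ, (τ ^ k) r = (ζ ^ f) ^ k * r := by
    intro k
    induction k with
    | zero => simp
    | succ k ih =>
      rw [pow_succ', AlgEquiv.mul_apply, ih, map_mul, hτr, map_pow, map_pow, hτfix ζ hζF]
      ring
  have hsr : (s / r) ^ e = 1 := by
    rw [div_pow, hs, hr, div_self]
    rw [← hr]
    exact pow_ne_zero _ hr0
  have : NeZero e := ⟨he0.ne'⟩
  obtain ⟨k, _, hk⟩ := hζ'.eq_pow_of_pow_eq_one hsr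
  refine ⟨k, ?_⟩
  rw [hτk, hk]
  field_simp

end Pool.Agent.Q164.OI.TAME
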